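import Mathlib

set_option autoImplicit false

/-!
# A local loop lemma for odd closed walks

`R` is a symmetric relation on `A`, preserved by the idempotent operation `f`, and the neighbours of
`a` absorb `a`. If `R` has a closed walk of odd length through `a` then `R` has a loop.

Idea. Let `N` be even and `a, O 0, …, O N = a` a closed walk; `b = O 0`. A *walk* is a sequence `c`
with `c 0` adjacent to `a` and `c s` adjacent to `c (s + 1)`. We add one position `i` after the other
to a set `T` of positions, keeping an element `x = f (p on T, b off T)` which is adjacent to all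
`p j` with `j` in `T` and to `c N` for some walk `c`. If `T` consists of all positions, `x` is a loop.
To add `i`, one defines a sequence `z` by recursion, such that the new walk is
`v s = f (C s on T, v (s - 1) at i, O s off T)`, where `C` is obtained from `c` in `N + 1` steps in
which the position `i` carries shifts of `z` itself.
-/

namespace Pool.Agent.Y84.LL

universe u

/-- recursion: a sequence each of whose terms is a given function of the previous terms -/
theorem exists_seq {A : Type u} (a : A) (F : ℕ → (ℕ → A) → A)
    (hF : ∀ k (z z' : ℕ → A), (∀ j, j < k → z j = z' j) → F k z = F k z') :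
    ∃ z : ℕ → A, ∀ k, z k = F k z := by
  classical
  let z : ℕ → A := fun k => Nat.strongRec (motive := fun _ => A)
    (fun k ih => F k (fun j => if h : j < k then ih j h else a)) k
  refine ⟨z, fun k => ?_⟩
  have h1 : z k = F k (fun j => if j < k then z j else a) := by
    show Nat.strongRec (motive := fun _ => A)
      (fun k ih => F k (fun j => if h : j < k then ih j h else a)) k = _
    rw [Nat.strongRec_eq]
    congr 1
  rw [h1]
  apply hF
  intro j hj
  rw [if_pos hj]

section

variable {A : Type u} {n : ℕ} (R : A → A → Prop) (f : (Fin n → A) → A) (a : A)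

/-- walks: sequences starting at a neighbour of `a` -/
def Wk (c : ℕ → A) : Prop := R a (c 0) ∧ ∀ s, R (c s) (c (s + 1))

variable (O : ℕ → A) (N : ℕ) (T : Finset (Fin n)) (i : Fin n) (c0 : ℕ → A)

/-- the walk at the positions off `T` and different from `i`, at time `t` -/
def E (t s : ℕ) : A := if t % 2 = 0 then O s else if s % 2 = 0 then O 0 else a

/-- the walks `C t`, depending on the sequence `z` -/
def C (z : ℕ → A) : ℕ → ℕ → A
  | 0, s => c0 s
  | t + 1, s => f (fun j => if j ∈ T then C z t s else if j = i then z (s + t) else
      E a O (t + 1) s)

/-- the recursion for `z` -/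
def F (k : ℕ) (z : ℕ → A) : A :=
  if k < N + 2 then (if k % 2 = 0 then O 0 else a) else
    f (fun j => if j ∈ T then C f a O T i c0 z (N + 1) (k - (N + 2)) else if j = i then z (k - 1)
      else O (k - (N + 2)))

/-- the elements `x` at time `t` -/
def X (z : ℕ → A) (x0 : A) : ℕ → A
  | 0 => x0
  | t + 1 => f (fun j => if j ∈ T then X z x0 t else if j = i then z (t + 1 + N) else
      if (t + 1) % 2 = 0 then O 0 else a)

theorem C_congr (z z' : ℕ → A) (t s : ℕ) (h : ∀ j, j < s + t → z j = z' j) :
    C f a O T i c0 z t s = C f a O T i c0 z' t s := by
  induction t with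
  | zero => rfl
  | succ t ih =>
    show f _ = f _
    congr 1
    funext j
    rw [ih (fun j hj => h j (by omega)), h (s + t) (by omega)]

theorem F_congr (k : ℕ) (z z' : ℕ → A) (h : ∀ j, j < k → z j = z' j) :
    F f a O N T i c0 k z = F f a O N T i c0 k z' := by
  unfold F
  by_cases hk : k < N + 2
  · rw [if_pos hk, if_pos hk]
  · rw [if_neg hk, if_neg hk]
    congr 1
    funext j
    rw [C_congr f a O T i c0 z z' (N + 1) (k - (N + 2)) (fun j hj => h j (by omega)),
      h (k - 1) (by omega)]

end

section

variable {A : Type u} {n : ℕ} {R : A → A → Prop} {f : (Fin n → A) → A} {a : A}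

/-- The state: an element `x = f (p on T, O 0 off T)` adjacent to `p j` for `j ∈ T` and to `c N` for
a walk `c`. -/
def Good (R : A → A → Prop) (f : (Fin n → A) → A) (a b : A) (N : ℕ) (T : Finset (Fin n)) : Prop :=
  ∃ (c : ℕ → A) (p : Fin n → A), Wk R a c ∧
    (∀ j ∈ T, R (f (fun j => if j ∈ T then p j else b)) (p j)) ∧
    R (f (fun j => if j ∈ T then p j else b)) (c N)

theorem good_step (hsym : ∀ x y, R x y → R y x) (hid : ∀ x, f (fun _ => x) = x)
    (hcomp : ∀ x y : Fin n → A, (∀ j, R (x j) (y j)) → R (f x) (f y))
    (habs : ∀ (i : Fin n) (x : Fin n → A), x i = a → (∀ j, j ≠ i → R a (x j)) → R a (f x))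
    (O : ℕ → A) (hO : Wk R a O) (N : ℕ) (hN : N % 2 = 0) (hON : O N = a)
    (T : Finset (Fin n)) (i : Fin n) (hi : i ∉ T) (hT : Good R f a (O 0) N T) :
    Good R f a (O 0) N (insert i T) := by
  classical
  obtain ⟨c0, p, hc0, hp, hx⟩ := hT
  set x0 := f (fun j => if j ∈ T then p j else O 0) with hx0
  obtain ⟨z, hz⟩ := exists_seq a (F f a O N T i c0) (F_congr f a O N T i c0)
  have hab : R a (O 0) := hO.1
  have hba : R (O 0) a := hsym _ _ hab
  -- the start of `z`
  have hz0 : ∀ k, k < N + 2 → z k = if k % 2 = 0 then O 0 else a := by
    intro k hk
    rw [hz]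
    unfold F
    rw [if_pos hk]
  have hz1 : ∀ s, z (s + (N + 2)) = f (fun j => if j ∈ T then C f a O T i c0 z (N + 1) s else
      if j = i then z (s + (N + 1)) else O s) := by
    intro s
    rw [hz (s + (N + 2))]
    unfold F
    rw [if_neg (by omega)]
    have e1 : s + (N + 2) - (N + 2) = s := by omega
    have e2 : s + (N + 2) - 1 = s + (N + 1) := by omega
    rw [e1, e2]
  -- the walks at the other positions
  have hE : ∀ t, Wk R a (E a O t) := by
    intro t
    by_cases ht : t % 2 = 0
    · have : E a O t = O := by
        funext s
        unfold E
        rw [if_pos ht]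
      rw [this]
      exact hO
    · constructor
      · unfold E
        rw [if_neg ht, if_pos rfl]
        exact hab
      · intro s
        unfold E
        rw [if_neg ht, if_neg ht]
        by_cases hs : s % 2 = 0
        · rw [if_pos hs, if_neg (by omega)]
          exact hba
        · rw [if_neg hs, if_pos (by omega)]
          exact hab
  -- the neighbours of `a` are closed
  have hB : ∀ x : Fin n → A, (∀ j, R a (x j)) → R a (f x) := by
    intro x h
    have := hcomp (fun _ => a) x h
    rwa [hid] at this
  -- `C t s` is adjacent to `C t (s + 1)`
  have hC : ∀ t s, (∀ k, k < s + t → R (z k) (z (k + 1))) →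
      R (C f a O T i c0 z t s) (C f a O T i c0 z t (s + 1)) := by
    intro t
    induction t with
    | zero => intro s _; exact hc0.2 s
    | succ t ih =>
      intro s h
      show R (f _) (f _)
      apply hcomp
      intro j
      by_cases hj : j ∈ T
      · rw [if_pos hj, if_pos hj]
        exact ih s (fun k hk => h k (by omega))
      · rw [if_neg hj, if_neg hj]
        by_cases hji : j = i
        · rw [if_pos hji, if_pos hji]
          have e : s + 1 + t = s + t + 1 := by omega
          rw [e]
          exact h (s + t) (by omega)
        · rw [if_neg hji, if_neg hji]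
          exact (hE (t + 1)).2 s
  -- `C t 0` is adjacent to `a`
  have hC0 : ∀ t, t ≤ N + 1 → R a (C f a O T i c0 z t 0) := by
    intro t
    induction t with
    | zero => intro _; exact hc0.1
    | succ t ih =>
      intro ht
      have ih' := ih (by omega)
      show R a (f _)
      by_cases ht2 : t % 2 = 0
      · apply hB
        intro j
        by_cases hj : j ∈ T
        · rw [if_pos hj]; exact ih'
        · rw [if_neg hj]
          by_cases hji : j = i
          · rw [if_pos hji, Nat.zero_add, hz0 t (by omega), if_pos ht2]
            exact hab
          · rw [if_neg hji]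
            exact (hE (t + 1)).1
      · apply habs i
        · rw [if_neg hi, if_pos rfl, Nat.zero_add, hz0 t (by omega), if_neg ht2]
        · intro j hji
          by_cases hj : j ∈ T
          · rw [if_pos hj]; exact ih'
          · rw [if_neg hj, if_neg hji]
            exact (hE (t + 1)).1
  -- `z` is a walk
  have hzw : ∀ k, R (z k) (z (k + 1)) := by
    intro k
    induction k using Nat.strong_induction_on with
    | _ k ih =>
      rcases lt_or_ge (k + 1) (N + 2) with hk | hk
      · rw [hz0 k (by omega), hz0 (k + 1) hk]
        by_cases h2 : k % 2 = 0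
        · rw [if_pos h2, if_neg (by omega)]
          exact hba
        · rw [if_neg h2, if_pos (by omega)]
          exact hab
      · rcases Nat.lt_or_ge k (N + 2) with hk' | hk'
        · obtain rfl : k = N + 1 := by omega
          have e1 := hz1 0
          rw [Nat.zero_add] at e1
          rw [hz0 (N + 1) (by omega), if_neg (by omega)]
          rw [show N + 1 + 1 = N + 2 from rfl, e1]
          apply habs i
          · rw [if_neg hi, if_pos rfl, Nat.zero_add, hz0 (N + 1) (by omega), if_neg (by omega)]
          · intro j hji
            by_cases hj : j ∈ T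
            · rw [if_pos hj]; exact hC0 (N + 1) le_rfl
            · rw [if_neg hj, if_neg hji]
              exact hab
        · obtain ⟨s, rfl⟩ : ∃ s, k = s + (N + 2) := ⟨k - (N + 2), by omega⟩
          rw [show s + (N + 2) + 1 = (s + 1) + (N + 2) by omega, hz1 s, hz1 (s + 1)]
          apply hcomp
          intro j
          by_cases hj : j ∈ T
          · rw [if_pos hj, if_pos hj]
            exact hC (N + 1) s (fun k hk => ih k (by omega))
          · rw [if_neg hj, if_neg hj]
            by_cases hji : j = i
            · rw [if_pos hji, if_pos hji]
              have e : s + 1 + (N + 1) = s + (N + 1) + 1 := by omega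
              rw [e]
              exact ih (s + (N + 1)) (by omega)
            · rw [if_neg hji, if_neg hji]
              exact hO.2 s
  -- the elements `X t`
  have hX : ∀ t, R (X f a O N T i z x0 t) (X f a O N T i z x0 (t + 1)) := by
    intro t
    induction t with
    | zero =>
      show R x0 (f _)
      rw [hx0]
      apply hcomp
      intro j
      by_cases hj : j ∈ T
      · rw [if_pos hj, if_pos hj]
        exact hsym _ _ (hp j hj)
      · rw [if_neg hj, if_neg hj]
        by_cases hji : j = i
        · rw [if_pos hji, hz0 (0 + 1 + N) (by omega), if_neg (by omega)]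
          exact hba
        · rw [if_neg hji, if_neg (show ¬ ((0 + 1) % 2 = 0) by norm_num)]
          exact hba
    | succ t ih =>
      show R (f _) (f _)
      apply hcomp
      intro j
      by_cases hj : j ∈ T
      · rw [if_pos hj, if_pos hj]
        exact ih
      · rw [if_neg hj, if_neg hj]
        by_cases hji : j = i
        · rw [if_pos hji, if_pos hji]
          have e : t + 1 + 1 + N = t + 1 + N + 1 := by omega
          rw [e]
          exact hzw _
        · rw [if_neg hji, if_neg hji]
          by_cases h2 : (t + 1) % 2 = 0
          · rw [if_pos h2, if_neg (by omega)]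
            exact hba
          · rw [if_neg h2, if_pos (by omega)]
            exact hab
  have hXC : ∀ t, R (X f a O N T i z x0 t) (C f a O T i c0 z t N) := by
    intro t
    induction t with
    | zero => exact hx
    | succ t ih =>
      show R (f _) (f _)
      apply hcomp
      intro j
      by_cases hj : j ∈ T
      · rw [if_pos hj, if_pos hj]
        exact ih
      · rw [if_neg hj, if_neg hj]
        by_cases hji : j = i
        · rw [if_pos hji, if_pos hji]
          have e : t + 1 + N = N + t + 1 := by omega
          rw [e]
          exact hsym _ _ (hzw _)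
        · rw [if_neg hji, if_neg hji]
          unfold E
          by_cases h2 : (t + 1) % 2 = 0
          · rw [if_pos h2, if_pos h2, hON]
            exact hba
          · rw [if_neg h2, if_neg h2, if_pos hN]
            exact hab
  -- the new element
  have hval : (fun j => if j ∈ insert i T then
      (if j ∈ T then X f a O N T i z x0 (N + 1) else z (N + (N + 2))) else O 0) =
      (fun j => if j ∈ T then X f a O N T i z x0 (N + 1) else if j = i then z (N + (N + 2)) else
        O 0) := by
    funext j
    by_cases hj : j ∈ T
    · rw [if_pos (Finset.mem_insert_of_mem hj), if_pos hj, if_pos hj]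
    · by_cases hji : j = i
      · rw [if_pos (by rw [hji]; exact Finset.mem_insert_self _ _), if_neg hj, if_neg hj,
          if_pos hji]
      · rw [if_neg (fun h => (Finset.mem_insert.1 h).elim hji hj), if_neg hj, if_neg hji]
  have hnew1 : R (f (fun j => if j ∈ T then X f a O N T i z x0 (N + 1) else if j = i then
      z (N + (N + 2)) else O 0)) (X f a O N T i z x0 (N + 1)) := by
    show R (f _) (f _)
    apply hcomp
    intro j
    by_cases hj : j ∈ T
    · rw [if_pos hj, if_pos hj]
      exact hsym _ _ (hX N)
    · rw [if_neg hj, if_neg hj]
      by_cases hji : j = i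
      · rw [if_pos hji, if_pos hji]
        have e : N + (N + 2) = N + 1 + N + 1 := by omega
        rw [e]
        exact hsym _ _ (hzw _)
      · rw [if_neg hji, if_neg hji, if_neg (by omega)]
        exact hba
  have hnew2 : R (f (fun j => if j ∈ T then X f a O N T i z x0 (N + 1) else if j = i then
      z (N + (N + 2)) else O 0)) (z (N + (N + 2))) := by
    have key : ∀ w : A, w = z (N + (N + 2)) →
        R (f (fun j => if j ∈ T then X f a O N T i z x0 (N + 1) else if j = i then w else O 0))
          (f (fun j => if j ∈ T then C f a O T i c0 z (N + 1) N else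
            if j = i then z (N + (N + 1)) else O N)) := by
      intro w hw
      apply hcomp
      intro j
      by_cases hj : j ∈ T
      · rw [if_pos hj, if_pos hj]
        exact hXC (N + 1)
      · rw [if_neg hj, if_neg hj]
        by_cases hji : j = i
        · rw [if_pos hji, if_pos hji, hw]
          have e : N + (N + 2) = N + (N + 1) + 1 := by omega
          rw [e]
          exact hsym _ _ (hzw _)
        · rw [if_neg hji, if_neg hji, hON]
          exact hba
    have h := key _ rfl
    rwa [← hz1 N] at h
  -- the new state
  refine ⟨fun s => z (s + (N + 2)), fun j => if j ∈ T then X f a O N T i z x0 (N + 1) else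
    z (N + (N + 2)), ⟨?_, ?_⟩, ?_, ?_⟩
  · have h1 := hzw (N + 1)
    rw [hz0 (N + 1) (by omega), if_neg (by omega)] at h1
    show R a (z (0 + (N + 2)))
    rw [Nat.zero_add]
    exact h1
  · intro s
    show R (z (s + (N + 2))) (z (s + 1 + (N + 2)))
    have e : s + 1 + (N + 2) = s + (N + 2) + 1 := by omega
    rw [e]
    exact hzw _
  · rw [hval]
    intro j hj
    show R _ (if j ∈ T then _ else _)
    by_cases hjT : j ∈ T
    · rw [if_pos hjT]
      exact hnew1
    · rw [if_neg hjT]
      exact hnew2
  · rw [hval]
    exact hnew2

/-- Loops from closed walks of odd length through `a`. -/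
theorem exists_loop (hsym : ∀ x y, R x y → R y x) (hid : ∀ x, f (fun _ => x) = x)
    (hcomp : ∀ x y : Fin n → A, (∀ j, R (x j) (y j)) → R (f x) (f y))
    (habs : ∀ (i : Fin n) (x : Fin n → A), x i = a → (∀ j, j ≠ i → R a (x j)) → R a (f x))
    (O : ℕ → A) (hO : Wk R a O) (N : ℕ) (hN : N % 2 = 0) (hON : O N = a) : ∃ x, R x x := by
  classical
  have h : ∀ T : Finset (Fin n), Good R f a (O 0) N T := by
    intro T
    induction T using Finset.induction_on with
    | empty =>
      refine ⟨O, fun _ => a, hO, fun j hj => absurd hj (Finset.notMem_empty j), ?_⟩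
      have h1 : (fun j : Fin n => if j ∈ (∅ : Finset (Fin n)) then a else O 0) = fun _ => O 0 := by
        funext j
        rw [if_neg (Finset.notMem_empty j)]
      rw [h1, hid, hON]
      exact hsym _ _ hO.1
    | insert i T hi ih => exact good_step hsym hid hcomp habs O hO N hN hON T i hi ih
  obtain ⟨c, p, -, hp, -⟩ := h Finset.univ
  have h1 : (fun j : Fin n => if j ∈ (Finset.univ : Finset (Fin n)) then p j else O 0) = p := by
    funext j
    rw [if_pos (Finset.mem_univ j)]
  rw [h1] at hp
  refine ⟨f p, ?_⟩
  have h2 := hcomp (fun _ => f p) p (fun j => hp j (Finset.mem_univ j))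
  rwa [hid] at h2

end

end Pool.Agent.Y84.LL
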